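import Pool.Agent.K3h26.R6.Stm

/-! Brick OVS (project R6 of helper26): the overlap of two tiles at a square face, every dimension.
The dimension five is `Pool.Agent.K3h24.R5.OVS` (helper24). -/

set_option autoImplicit false

open MeasureTheory Filter Topology Set
open scoped ENNReal

namespace Pool.Agent.K3h66.R6

open H947TP Pool.Agent.K3h26.R6

theorem vol_le {d : ℕ} (A : Set (Fin d → ℝ)) (L : Matrix (Fin d) (Fin d) ℝ) (hdet : |L.det| = 2)
    (lo hi : Fin d → ℝ)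
    (hsub : ∀ x ∈ A, ∀ l, lo l < (Matrix.toLin' L) x l ∧ (Matrix.toLin' L) x l < hi l) :
    volume A ≤ ENNReal.ofReal (1 / 2) * ∏ l, ENNReal.ofReal (hi l - lo l) := by
  have h1 : A ⊆ (Matrix.toLin' L) ⁻¹' (Set.pi univ fun l => Ioo (lo l) (hi l)) := by
    intro x hx l _
    exact hsub x hx l
  refine (measure_mono h1).trans ?_
  have hne : LinearMap.det (Matrix.toLin' L) ≠ 0 := by
    rw [LinearMap.det_toLin']
    intro h
    rw [h, abs_zero] at hdet
    norm_num at hdet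
  rw [Measure.addHaar_preimage_linearMap volume hne, LinearMap.det_toLin', abs_inv, hdet,
    Real.volume_pi_Ioo]
  norm_num

theorem len (c w : ℝ) : min c (w + c) - max (-c) (w - c) = 2 * c - |w| := by
  rcases le_total 0 w with h | h
  · rw [min_eq_left (by linarith), max_eq_right (by linarith), abs_of_nonneg h]; ring
  · rw [min_eq_right (by linarith), max_eq_left (by linarith), abs_of_nonpos h]; ring

theorem betw {c w x : ℝ} (h1 : |x| < c) (h2 : |x - w| < c) :
    max (-c) (w - c) < x ∧ x < min c (w + c) := by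
  rw [abs_lt] at h1 h2
  exact ⟨max_lt h1.1 (by linarith [h2.1]), lt_min h1.2 (by linarith [h2.2])⟩

theorem fin_le {b τ : ℝ} (hb : 0 ≤ b) (hτ0 : 0 ≤ τ) (hτ : τ ≤ 1 / 10) :
    ENNReal.ofReal (1 / 2) * (ENNReal.ofReal (2 * τ) * (ENNReal.ofReal (1 + 4 * τ) *
      (ENNReal.ofReal (1 + 4 * τ) * ENNReal.ofReal b))) ≤
    ENNReal.ofReal (b * (τ * (1 + 10 * τ))) := by
  rw [← ENNReal.ofReal_mul (by linarith),
    ← ENNReal.ofReal_mul (by linarith), ← ENNReal.ofReal_mul (by linarith),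
    ← ENNReal.ofReal_mul (by norm_num)]
  apply ENNReal.ofReal_le_ofReal
  have h1 : 1 / 2 * (2 * τ * ((1 + 4 * τ) * ((1 + 4 * τ) * b))) =
      b * (τ * ((1 + 4 * τ) * (1 + 4 * τ))) := by ring
  rw [h1]
  apply mul_le_mul_of_nonneg_left _ hb
  apply mul_le_mul_of_nonneg_left _ hτ0
  nlinarith

/-- the two sums of the coordinates other than `i` -/
theorem diam {a b c v r : ℝ} (h : |a| + |b| + |c| < 3 / 2) (hd : |a - v| < 1)
    (hr : |v| = 5 / 2 - r) :
    (-r < b + c ∧ b + c < r) ∧ (-r < b - c ∧ b - c < r) := by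
  have h1 : |v| - |a| ≤ |a - v| := by
    rw [abs_sub_comm]; exact abs_sub_abs_le_abs_sub _ _
  have h2 := abs_le.mp (le_refl |b|)
  have h3 := abs_le.mp (le_refl |c|)
  refine ⟨⟨?_, ?_⟩, ?_, ?_⟩ <;> linarith [h2.1, h2.2, h3.1, h3.2]

/-- the linear map which replaces the coordinates `j`, `k` by their sum and their difference -/
def LM {d : ℕ} (j k : Fin d) : Matrix (Fin d) (Fin d) ℝ :=
  Matrix.transvection k j 1 *
    (Matrix.diagonal (Function.update 1 k (-2)) * Matrix.transvection j k 1)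

theorem det_LM {d : ℕ} {j k : Fin d} (h : j ≠ k) : |(LM j k).det| = 2 := by
  unfold LM
  rw [Matrix.det_mul, Matrix.det_mul, Matrix.det_transvection_of_ne _ _ h.symm,
    Matrix.det_transvection_of_ne _ _ h, Matrix.det_diagonal,
    Finset.prod_update_of_mem (Finset.mem_univ _)]
  simp

theorem transvection_apply {d : ℕ} {j k : Fin d} (x : Fin d → ℝ) (l : Fin d) :
    (Matrix.transvection j k 1).mulVec x l = x l + if l = j then x k else 0 := by
  unfold Matrix.transvection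
  rw [Matrix.add_mulVec, Matrix.one_mulVec, Pi.add_apply, Matrix.single_mulVec,
    Function.update_apply]
  simp

theorem LM_apply {d : ℕ} {j k : Fin d} (h : j ≠ k) (x : Fin d → ℝ) (l : Fin d) :
    Matrix.toLin' (LM j k) x l =
      if l = j then x j + x k else if l = k then x j - x k else x l := by
  unfold LM
  rw [Matrix.toLin'_apply, ← Matrix.mulVec_mulVec, ← Matrix.mulVec_mulVec, transvection_apply,
    Matrix.mulVec_diagonal, Matrix.mulVec_diagonal, transvection_apply, transvection_apply]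
  by_cases h1 : l = j
  · subst h1
    simp [h]
  · by_cases h2 : l = k
    · subst h2
      simp [h, h.symm]
      ring
    · simp [h1, h2]

/-- the general step: `i, j, k` are `0, 1, 2` in some order -/
theorem step {p : ℕ} (A : Set (Fin (p + 5) → ℝ)) (v : Fin (p + 5) → ℝ) (τ : ℝ)
    (i j k : Fin (p + 5)) (hij : i ≠ j) (hik : i ≠ k) (hjk : j ≠ k)
    (hi : ∀ m : Fin (p + 2), m.succ.succ.succ ≠ i) (hj : ∀ m : Fin (p + 2), m.succ.succ.succ ≠ j)
    (hk : ∀ m : Fin (p + 2), m.succ.succ.succ ≠ k)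
    (hex : ∀ l : Fin (p + 5), l = i ∨ l = j ∨ l = k ∨ ∃ m : Fin (p + 2), l = m.succ.succ.succ)
    (hprod : ∀ f : Fin (p + 5) → ℝ≥0∞,
      ∏ l, f l = f i * (f j * (f k * ∏ m : Fin (p + 2), f m.succ.succ.succ)))
    (hv : |v i| = 2 * (1 - τ)) (hτ0 : 0 ≤ τ) (hτ : τ ≤ 1 / 10)
    (h3 : ∀ m, 0 ≤ 1 - |yy v m|)
    (hA : ∀ x ∈ A, |x i| + |x j| + |x k| < 3 / 2 ∧ |x i| < 1 ∧ |x i - v i| < 1 ∧
      (∀ m, |yy x m| < 1 / 2) ∧ ∀ m, |yy x m - yy v m| < 1 / 2) :
    volume A ≤ ENNReal.ofReal (mu v * (τ * (1 + 10 * τ))) := by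
  set lo : Fin (p + 5) → ℝ := fun l => if l = i then max (-1) (v i - 1) else
    if l = j ∨ l = k then -(1 / 2 + 2 * τ) else max (-(1 / 2)) (v l - 1 / 2) with hlo
  set hi' : Fin (p + 5) → ℝ := fun l => if l = i then min 1 (v i + 1) else
    if l = j ∨ l = k then 1 / 2 + 2 * τ else min (1 / 2) (v l + 1 / 2) with hhi
  refine (vol_le A (LM j k) (det_LM hjk) lo hi' ?_).trans ?_
  · intro x hx l
    obtain ⟨a1, a2, b2, a3, b3⟩ := hA x hx
    obtain ⟨d1, d2⟩ := diam (r := 1 / 2 + 2 * τ) a1 b2 (by rw [hv]; ring)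
    rw [LM_apply hjk]
    rcases hex l with rfl | rfl | rfl | ⟨m, rfl⟩
    · simp only [hlo, hhi, if_neg hij, if_neg hik, if_true]
      exact betw a2 b2
    · simp only [hlo, hhi, if_neg hij.symm, true_or, if_true]
      exact d1
    · simp only [hlo, hhi, if_neg hik.symm, if_neg hjk.symm, or_true, if_true]
      exact d2
    · simp only [hlo, hhi, if_neg (hi m), hj m, hk m, or_self,
        if_false]
      exact betw (a3 m) (b3 m)
  · have e0 : hi' i - lo i = 2 * τ := by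
      have := len 1 (v i)
      rw [hv] at this
      simp only [hlo, hhi, if_true]
      linarith
    have e1 : hi' j - lo j = 1 + 4 * τ := by
      simp only [hlo, hhi, if_neg hij.symm, true_or, if_true]
      ring
    have e2 : hi' k - lo k = 1 + 4 * τ := by
      simp only [hlo, hhi, if_neg hik.symm, or_true, if_true]
      ring
    have e3 : ∀ m : Fin (p + 2), hi' m.succ.succ.succ - lo m.succ.succ.succ = 1 - |yy v m| := by
      intro m
      simp only [hlo, hhi, if_neg (hi m), hj m, hk m, or_self, if_false]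
      have := len (1 / 2) (v m.succ.succ.succ)
      unfold yy
      linarith
    rw [hprod, e0, e1, e2]
    simp only [e3]
    rw [← ENNReal.ofReal_prod_of_nonneg fun m _ => h3 m]
    exact fin_le (Finset.prod_nonneg fun m _ => h3 m) hτ0 hτ

theorem t_OVS : Pool.Agent.K3h26.R6.S_OVS := by
  intro p v τ hn1 hni hnq hτ hτ10
  have h3 : ∀ m, 0 ≤ 1 - |yy v m| := by
    intro m
    have h1 := norm_le_pi_norm (yy v) m
    rw [Real.norm_eq_abs] at h1
    have h2 : ‖yy v‖ < 1 := hnq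
    linarith
  have hτ0 : 0 ≤ τ := by rw [hτ]; linarith
  have hmem : ∀ x ∈ Pt p 1 ∩ tr v (Pt p 1), (|x 0| + |x 1| + |x 2| < 3 / 2 ∧
      (|x 0| < 1 ∧ |x 1| < 1 ∧ |x 2| < 1) ∧ ∀ m, |yy x m| < 1 / 2) ∧
      (|x 0 - v 0| < 1 ∧ |x 1 - v 1| < 1 ∧ |x 2 - v 2| < 1) ∧
      ∀ m, |yy x m - yy v m| < 1 / 2 := by
    intro x hx
    obtain ⟨⟨ha1, ha2, ha3⟩, hb⟩ := hx
    have hb' : x - v ∈ Pt p 1 := by
      obtain ⟨z, hz, rfl⟩ := hb
      have : v + z - v = z := by abel
      simpa [this] using hz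
    obtain ⟨-, hb2, hb3⟩ := hb'
    simp only [ni, max_lt_iff, Pi.sub_apply] at ha2 hb2
    have hq : ∀ y : Fin (p + 5) → ℝ, nq y < 1 / 2 → ∀ m, |yy y m| < 1 / 2 := by
      intro y hy m
      have h1 := norm_le_pi_norm (yy y) m
      rw [Real.norm_eq_abs] at h1
      exact lt_of_le_of_lt h1 hy
    refine ⟨⟨by simpa [n1] using ha1, ⟨ha2.1, ha2.2.1, ha2.2.2⟩, hq x ha3⟩,
      ⟨hb2.1, hb2.2.1, hb2.2.2⟩, fun m => ?_⟩
    exact hq (x - v) hb3 m
  have hcases : |v 0| = ni v ∨ |v 1| = ni v ∨ |v 2| = ni v := by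
    unfold ni
    rcases max_choice |v 0| (max |v 1| |v 2|) with h | h
    · left; exact h.symm
    · rw [h]
      rcases max_choice |v 1| |v 2| with h' | h'
      · right; left; exact h'.symm
      · right; right; exact h'.symm
  have hni2 : ni v = 2 * (1 - τ) := by rw [hτ]; ring
  have e1 : (1 : Fin (p + 5)) = Fin.succ 0 := rfl
  have e2 : (2 : Fin (p + 5)) = Fin.succ (Fin.succ 0) := rfl
  have h01 : (0 : Fin (p + 5)) ≠ 1 := by
    rw [e1]; exact (Fin.succ_ne_zero _).symm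
  have h02 : (0 : Fin (p + 5)) ≠ 2 := by
    rw [e2]; exact (Fin.succ_ne_zero _).symm
  have h12 : (1 : Fin (p + 5)) ≠ 2 := by
    rw [e1, e2]
    intro h
    exact Fin.succ_ne_zero _ (Fin.succ_injective _ h).symm
  have n0 : ∀ m : Fin (p + 2), m.succ.succ.succ ≠ (0 : Fin (p + 5)) := fun m => Fin.succ_ne_zero _
  have n1' : ∀ m : Fin (p + 2), m.succ.succ.succ ≠ (1 : Fin (p + 5)) := by
    intro m h
    rw [e1] at h
    exact Fin.succ_ne_zero _ (Fin.succ_injective _ h)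
  have n2 : ∀ m : Fin (p + 2), m.succ.succ.succ ≠ (2 : Fin (p + 5)) := by
    intro m h
    rw [e2] at h
    exact Fin.succ_ne_zero _ (Fin.succ_injective _ (Fin.succ_injective _ h))
  have hex : ∀ l : Fin (p + 5), l = 0 ∨ l = 1 ∨ l = 2 ∨ ∃ m : Fin (p + 2), l = m.succ.succ.succ := by
    intro l
    rcases Fin.eq_zero_or_eq_succ l with h | ⟨l1, rfl⟩
    · exact Or.inl h
    · rcases Fin.eq_zero_or_eq_succ l1 with h | ⟨l2, rfl⟩
      · exact Or.inr (Or.inl (by rw [h, e1]))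
      · rcases Fin.eq_zero_or_eq_succ l2 with h | ⟨l3, rfl⟩
        · exact Or.inr (Or.inr (Or.inl (by rw [h, e2])))
        · exact Or.inr (Or.inr (Or.inr ⟨l3, rfl⟩))
  have hprod : ∀ f : Fin (p + 5) → ℝ≥0∞,
      ∏ l, f l = f 0 * (f 1 * (f 2 * ∏ m : Fin (p + 2), f m.succ.succ.succ)) := by
    intro f
    rw [Fin.prod_univ_succ, Fin.prod_univ_succ, Fin.prod_univ_succ]
    rfl
  rcases hcases with h | h | h
  · refine step _ v τ 0 1 2 h01 h02 h12 n0 n1' n2 hex hprod (h.trans hni2) hτ0 hτ10 h3 ?_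
    intro x hx
    obtain ⟨⟨a1, ⟨a2, a3, a4⟩, a5⟩, ⟨b2, b3, b4⟩, b5⟩ := hmem x hx
    exact ⟨by linarith, a2, b2, a5, b5⟩
  · refine step _ v τ 1 0 2 h01.symm h12 h02 n1' n0 n2 (fun l => by rcases hex l with h | h | h | h <;> tauto)
      (fun f => by rw [hprod]; ring) (h.trans hni2) hτ0 hτ10 h3 ?_
    intro x hx
    obtain ⟨⟨a1, ⟨a2, a3, a4⟩, a5⟩, ⟨b2, b3, b4⟩, b5⟩ := hmem x hx
    exact ⟨by linarith, a3, b3, a5, b5⟩
  · refine step _ v τ 2 0 1 h02.symm h12.symm h01 n2 n0 n1' (fun l => by rcases hex l with h | h | h | h <;> tauto)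
      (fun f => by rw [hprod]; ring) (h.trans hni2) hτ0 hτ10 h3 ?_
    intro x hx
    obtain ⟨⟨a1, ⟨a2, a3, a4⟩, a5⟩, ⟨b2, b3, b4⟩, b5⟩ := hmem x hx
    exact ⟨by linarith, a4, b4, a5, b5⟩

end Pool.Agent.K3h66.R6
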